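import Pool.Agent.H10.NspB

namespace Pool.Agent.Results.MP_8c5ed8_co.Limit
open Pool.Agent.H10.Nsp

theorem result : Filter.Tendsto (fun n : ℕ => (S' n : ℝ) / (P n : ℝ)) Filter.atTop (nhds 0) :=
  main

end Pool.Agent.Results.MP_8c5ed8_co.Limit
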